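import Pool.Agent.Lib.MP_67d80e_pr_u4.Chk0
import Pool.Agent.Lib.MP_67d80e_pr_u4.Chk1
import Pool.Agent.Lib.MP_67d80e_pr_opt.HasUB

/-!
The functional of the table of option labels, dimension 4.
-/

set_option autoImplicit false
set_option maxRecDepth 100000

namespace Pool.Agent.Lib.MP_67d80e_pr_u4

open Pool.Agent.Lib.MP_67d80e_pr Pool.Agent.Lib.MP_67d80e_pr_all Pool.Agent.Lib.MP_67d80e_pr_lab Pool.Agent.Lib.MP_67d80e_pr_opt

theorem chk_all : ∀ i < cst.N, ∃ x, chk cst i x = 0 := by
  intro i hi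
  change i < 1411 at hi
  by_cases h1024 : i < 1024
  · exact errL_spec chk_0 i (by omega) h1024
  exact errL_spec chk_1024 i (by omega) hi

theorem hasPsi_all : ∃ Ψ, HasPsi 3 (86 / 25) (957125 / 100000) Ψ := by
  have h := hasPsi_of_chk cst_ok root_ok chk_all
  have h1 : cst.q = 86 / 25 := by unfold PC.q cst; norm_num
  have h2 : cst.lam = 957125 / 100000 := by unfold PC.lam cst; norm_num
  rwa [h1, h2] at h

/-- the upper bound in dimension 4 -/
theorem hasUB : HasUB 3 (77482 / 10000) :=
  hasUB_psi (a := 42) (b := 34) hasPsi_all (by norm_num) (by norm_num) (by norm_num) (by norm_num)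
    (by norm_num) (by norm_num)

end Pool.Agent.Lib.MP_67d80e_pr_u4
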